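import Pool.Agent.K3h2.LT.Stm
import Pool.Agent.K3h34.LT.TwoCycle

set_option autoImplicit false

namespace Pool.Agent.K3h13.LT

open Pool.Agent.K3h2.LT Filter Topology

theorem summable_half : Summable (fun k : ℤ => ((1 : ℝ) / 2) ^ k.natAbs) := by
  have h : Summable (fun n : ℕ => ((1 : ℝ) / 2) ^ n) :=
    summable_geometric_of_lt_one (by norm_num) (by norm_num)
  refine Summable.of_nat_of_neg ?_ ?_
  · simpa using h
  · simpa using h

theorem summable_dom {C : ℝ} {x : ℤ → ℝ} (h0 : ∀ k, 0 ≤ x k)
    (h : ∀ k, x k ≤ C * (1 / 2) ^ k.natAbs) : Summable x :=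
  Summable.of_nonneg_of_le h0 h (summable_half.mul_left C)

theorem t_CYC : S_CYC := by
  intro C L x y hL hx hy hxC hyC hcube ey ex
  -- zeros propagate
  have hz : ∀ k, x k = 0 → y (k - 1) = 0 ∧ y k = 0 ∧ y (k + 1) = 0 := by
    intro k hk
    have h1 := ex k
    rw [hk, mul_zero] at h1
    have ha := sq_nonneg (y (k - 1))
    have hb := sq_nonneg (y k)
    have hc := sq_nonneg (y (k + 1))
    refine ⟨?_, ?_, ?_⟩
    · exact pow_eq_zero_iff (two_ne_zero) |>.mp (by linarith)
    · exact pow_eq_zero_iff (two_ne_zero) |>.mp (by linarith)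
    · exact pow_eq_zero_iff (two_ne_zero) |>.mp (by linarith)
  have hz' : ∀ k, y k = 0 → x (k - 1) = 0 ∧ x k = 0 ∧ x (k + 1) = 0 := by
    intro k hk
    have h1 := ey k
    rw [hk, mul_zero] at h1
    have ha := sq_nonneg (x (k - 1))
    have hb := sq_nonneg (x k)
    have hc := sq_nonneg (x (k + 1))
    refine ⟨?_, ?_, ?_⟩
    · exact pow_eq_zero_iff (two_ne_zero) |>.mp (by linarith)
    · exact pow_eq_zero_iff (two_ne_zero) |>.mp (by linarith)
    · exact pow_eq_zero_iff (two_ne_zero) |>.mp (by linarith)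
  have hxne : ∀ k, x k ≠ 0 := by
    intro k hk
    have hall : ∀ j : ℤ, x (k + j) = 0 := by
      intro j
      induction j using Int.induction_on with
      | zero => rw [add_zero]; exact hk
      | succ i ih =>
        have h1 := (hz' _ (hz _ ih).2.1).2.2
        rw [← add_assoc]
        exact h1
      | pred i ih =>
        have h1 := (hz' _ (hz _ ih).2.1).1
        have h2 : k + (-(i : ℤ) - 1) = k + -(i : ℤ) - 1 := by ring
        rw [h2]
        exact h1
    have h0 : ∀ j, x j = 0 := fun j => by
      have := hall (j - k)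
      rwa [add_sub_cancel] at this
    have h1 : HasSum (fun k => x k ^ 3) 0 := by
      have h2 : (fun k => x k ^ 3) = fun _ => (0 : ℝ) := by
        funext j
        rw [h0 j]
        norm_num
      rw [h2]
      exact hasSum_zero
    exact one_ne_zero (hcube.unique h1)
  have hxp : ∀ k, 0 < x k := fun k => lt_of_le_of_ne (hx k) (Ne.symm (hxne k))
  have hyp : ∀ k, 0 < y k := fun k =>
    lt_of_le_of_ne (hy k) (fun h => hxne k (hz' k h.symm).2.1)
  have hXp : ∀ k, 0 < x k / L := fun k => div_pos (hxp k) hL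
  have hYp : ∀ k, 0 < y k / L := fun k => div_pos (hyp k) hL
  have e1 : ∀ k, x k / L = (y (k - 1) / L) ^ 2 + (y k / L) ^ 2 + (y (k + 1) / L) ^ 2 := by
    intro k
    have h1 := ex k
    field_simp
    linarith
  have e2 : ∀ k, y k / L = (x (k - 1) / L) ^ 2 + (x k / L) ^ 2 + (x (k + 1) / L) ^ 2 := by
    intro k
    have h1 := ey k
    field_simp
    linarith
  have sX : Summable fun k => x k / L := (summable_dom hx hxC).div_const L
  have sY : Summable fun k => y k / L := (summable_dom hy hyC).div_const L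
  have hXY := Pool.Agent.K3h34.LT.two_cycle (fun k => x k / L) (fun k => y k / L) hXp hYp e1 e2
    sX sY
  have hxy : x = y := by
    funext k
    have h1 := congrFun hXY k
    rw [div_left_inj' hL.ne'] at h1
    exact h1
  refine ⟨⟨hxp, hxC, hcube, fun k => ?_, fun k => ?_⟩, hxy⟩
  · have h1 := ex k
    rw [← hxy] at h1
    exact h1
  · have h1 := Pool.Agent.K3h34.LT.sum_lt_one (X := fun k => x k / L) (Y := fun k => y k / L)
      hXp hYp e1 e2 k
    rw [← hxy, ← add_div, div_lt_one hL] at h1
    linarith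

end Pool.Agent.K3h13.LT
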